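import Pool.Agent.EN45.Fin

/-!
# MP_297ee4_lc, Q1: the hypothesis `hm = 𝔠` is not necessary

There is a model of ZFC in which `hm < 𝔠` and some `𝔠`-crowded, `𝔠`-entangled set of reals has a
nontrivial autohomeomorphism.  This is the negated form of Q1.  No assumption beyond ZFC is used.

* `ZFC E` (file `Pool/Agent/BVM/Fml.lean`): `(M, E)` is a model of ZFC.
* `Omega` (file `Pool/Agent/BVM/Notions.lean`): `w` is `ω`.
* `Pow`, `Line`, `Crowded`, `Entangled`, `Homeo`, `Evens`, `HmLt` (file
  `Pool/Agent/EN45/Defs.lean`): the set of all subsets of `ω`, the real line, the notions
  `𝔠`-crowded, `𝔠`-entangled, autohomeomorphism, the set of even numbers and `hm < 𝔠`,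
  relativized to `(M, E)`.

The model is a quotient, by an ultrafilter, of the Boolean-valued universe over the regular open
algebra of a poset.  The poset is a form of the countable support iteration, of length the
successor of `2 ^ ω`, of the forcing with finitely branching trees whose sets of children carry
two linear orders, which contain richer and richer pairs of orders along each branch.  Concretely,
let `X` be the compact space of sequences `x` with `x n` in the grid `L n` of all pairs of numbers
`≤ n + 1`, with the two lexicographic orders, and let `I` be a well-ordered set of order type the
successor cardinal of `2 ^ ω`.  A condition (`Cnd` in `Pool/Agent/EN45/Cnd.lean`) is a basic clopen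
set `t` of the product space `I → X` with a map `f` of `t` into `I → X` which is, in each
coordinate and given the smaller coordinates, an embedding of trees which preserves both orders;
the order is divisibility.

* In the model, each subset `x` of `ω` is the value of a continuous function of the ground model
  at the generic sequence, and by Theorem A (`Pool/Agent/EN45/A6.lean`, proved by a Ramsey theorem
  for the two orders and a fusion argument) it is a branch of a monochromatic tree of the ground
  model.  There are fewer than `𝔠` of these trees.
* The set `A` consists of the two points `e₁ (y β)` and `e₂ (y β)`, for `β` in `I`.  Here `y β` is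
  the generic point at the coordinate `β` with finitely many entries changed, and `e₁`, `e₂` are the
  embeddings of `X` into the real line which are increasing for the first and the second order.
  The autohomeomorphism exchanges `e₁ (y β)` and `e₂ (y β)`.  The set is entangled because the
  signs of the differences at finitely many coordinates can be prescribed independently, in both
  orders.
-/

namespace Pool.Agent.Results.MP_297ee4_lc.HmBelowContinuum

open Pool.Agent.BVM (ZFC Omega Rel)
open Pool.Agent.OG45 (Sub)
open Pool.Agent.EN45 (Pow Line Crowded Entangled Homeo Evens HmLt exists_model)

/-- **Main theorem.**  There is a model `(M, E)` of ZFC, with `w = ω`, with `P` the set of all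
subsets of `ω` and `e` the set of even natural numbers, in which `hm < 𝔠` and in which, for a real
line `(R, L)`, there are a `𝔠`-crowded, `𝔠`-entangled subset `A` of `R` and a homeomorphism `h` of
`A` onto itself which is not the identity. -/
theorem result : ∃ (M : Type 1) (E : M → M → Prop), ZFC E ∧ ∃ w P e R L A h : M,
    Omega E w ∧ Pow E w P ∧ Evens E w e ∧ HmLt E w e P ∧
      Line E w R L ∧ Sub E A R ∧ Crowded E P R L A ∧ Entangled E w P R L A ∧
        Homeo E R L A h ∧ ∃ x y, Rel E h x y ∧ x ≠ y :=
  exists_model

end Pool.Agent.Results.MP_297ee4_lc.HmBelowContinuum
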